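import Pool.Agent.Helper28.BA.GoalsA

/-! Project BA, packet HULL: the convex hull operator. -/

open Complex MeasureTheory Set Filter Topology
open Pool.Agent.Helper28.BA

namespace Pool.Agent.Helper27.BA

theorem nsq (z : ℂ) : ‖z‖ ^ 2 = z.re * z.re + z.im * z.im := by
  rw [Complex.sq_norm, Complex.normSq_apply]

/-- convex minorants -/
def minor (h : ℂ → ℝ) : Set (ℂ → ℝ) := {k | ConvexOn ℝ univ k ∧ ∀ z, k z ≤ h z}

/-- the convex hull -/
noncomputable def hull (h : ℂ → ℝ) (z : ℂ) : ℝ := sSup ((fun k : ℂ → ℝ => k z) '' minor h)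

section
variable {h : ℂ → ℝ} {M : ℝ}

theorem minor_nonempty (hM : ∀ z, -M ≤ h z) : (minor h).Nonempty :=
  ⟨fun _ => -M, convexOn_const _ convex_univ, hM⟩

theorem le_hull {k : ℂ → ℝ} (hk : k ∈ minor h) (z : ℂ) : k z ≤ hull h z := by
  refine le_csSup ⟨h z, ?_⟩ ⟨k, hk, rfl⟩
  rintro _ ⟨k', hk', rfl⟩
  exact hk'.2 z

theorem hull_le (hM : ∀ z, -M ≤ h z) (z : ℂ) {c : ℝ} (hc : ∀ k ∈ minor h, k z ≤ c) :
    hull h z ≤ c := by
  refine csSup_le ((minor_nonempty hM).image _) ?_
  rintro _ ⟨k', hk', rfl⟩
  exact hc k' hk'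

theorem hull_mem (hM : ∀ z, -M ≤ h z) : hull h ∈ minor h := by
  refine ⟨⟨convex_univ, ?_⟩, fun z => hull_le hM z fun k hk => hk.2 z⟩
  intro x _ y _ a b ha hb hab
  refine hull_le hM _ fun k hk => ?_
  refine (hk.1.2 (mem_univ x) (mem_univ y) ha hb hab).trans ?_
  exact add_le_add (smul_le_smul_of_nonneg_left (le_hull hk x) ha)
    (smul_le_smul_of_nonneg_left (le_hull hk y) hb)

end

theorem HULL : S_HULL := by
  intro f hf hM hUp
  obtain ⟨M, hM⟩ := hM
  obtain ⟨h, hh⟩ : ∃ h : ℂ → ℝ, h = fun z => ‖z‖ ^ 2 / 2 - f z := ⟨_, rfl⟩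
  have hhz : ∀ z, h z = ‖z‖ ^ 2 / 2 - f z := fun z => by rw [hh]
  have hhM : ∀ z, -M ≤ h z := fun z => by
    rw [hhz]
    have := hM z
    have : 0 ≤ ‖z‖ ^ 2 / 2 := by positivity
    linarith
  have hG := hull_mem hhM
  have hhc : Continuous h := by
    rw [hh]
    exact ((continuous_norm.pow 2).div_const 2).sub hf
  obtain ⟨G, hGe⟩ : ∃ G, G = hull h := ⟨_, rfl⟩
  rw [← hGe] at hG
  have hmax : ∀ k ∈ minor h, ∀ z, k z ≤ G z := fun k hk z => by
    rw [hGe]
    exact le_hull hk z
  refine ⟨fun z => ‖z‖ ^ 2 / 2 - G z, ?_, ?_, ?_, ?_, ?_⟩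
  · refine ⟨convex_univ, ?_⟩
    intro x _ y _ a b ha hb hab
    have key : a * G x + b * G y - a * b * ‖x - y‖ ^ 2 ≤ G (a • x + b • y) := by
      obtain ⟨v, hv⟩ : ∃ v, v = x - y := ⟨_, rfl⟩
      rw [← hv]
      have hk : (fun z => a * G (z + b • v) + b * G (z - a • v) -
          a * b * ‖v‖ ^ 2) ∈ minor h := by
        constructor
        · refine ⟨convex_univ, ?_⟩
          intro p _ q _ s t hs ht hst
          have h1 := hG.1.2 (mem_univ (p + b • v)) (mem_univ (q + b • v)) hs ht hst
          have h2 := hG.1.2 (mem_univ (p - a • v)) (mem_univ (q - a • v)) hs ht hst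
          have e1 : s • (p + b • v) + t • (q + b • v) =
              s • p + t • q + b • v := by
            calc s • (p + b • v) + t • (q + b • v) =
                s • p + t • q + (s + t) • (b • v) := by
                  rw [smul_add, smul_add, add_smul]; abel
              _ = _ := by rw [hst, one_smul]
          have e2 : s • (p - a • v) + t • (q - a • v) =
              s • p + t • q - a • v := by
            calc s • (p - a • v) + t • (q - a • v) =
                s • p + t • q - (s + t) • (a • v) := by
                  rw [smul_sub, smul_sub, add_smul]; abel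
              _ = _ := by rw [hst, one_smul]
          rw [e1] at h1
          rw [e2] at h2
          simp only [smul_eq_mul] at h1 h2 ⊢
          have h3 := mul_le_mul_of_nonneg_left h1 ha
          have h4 := mul_le_mul_of_nonneg_left h2 hb
          have h5 : a * b * ‖v‖ ^ 2 = s * (a * b * ‖v‖ ^ 2) + t * (a * b * ‖v‖ ^ 2) := by
            rw [← add_mul, hst, one_mul]
          rw [h5]
          nlinarith
        · intro z
          have h1 := hG.2 (z + b • v)
          have h2 := hG.2 (z - a • v)
          have h3 := hUp.2 (mem_univ (z + b • v)) (mem_univ (z - a • v)) ha hb hab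
          have e3 : a • (z + b • v) + b • (z - a • v) = z := by
            calc a • (z + b • v) + b • (z - a • v) = (a + b) • z +
                ((a * b) • v - (b * a) • v) := by
                  rw [smul_add, smul_sub, add_smul, smul_smul, smul_smul]; abel
              _ = z := by rw [hab, one_smul, mul_comm a b, sub_self, add_zero]
          rw [e3] at h3
          rw [hhz] at h1 h2
          rw [hhz]
          simp only [smul_eq_mul] at h3
          have e4 : a * ‖z + b • v‖ ^ 2 + b * ‖z - a • v‖ ^ 2 =
              ‖z‖ ^ 2 + a * b * ‖v‖ ^ 2 := by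
            rw [nsq, nsq, nsq, nsq]
            simp only [add_re, add_im, sub_re, sub_im, real_smul, mul_re, mul_im, ofReal_re,
              ofReal_im, zero_mul, sub_zero, add_zero]
            have hb' : b = 1 - a := by linarith
            subst hb'
            ring
          have h4 := mul_le_mul_of_nonneg_left h1 ha
          have h5 := mul_le_mul_of_nonneg_left h2 hb
          nlinarith
      have h6 := hmax _ hk (a • x + b • y)
      have e5 : a • x + b • y + b • v = x := by
        calc a • x + b • y + b • v = (a + b) • x := by rw [hv, smul_sub, add_smul]; abel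
          _ = x := by rw [hab, one_smul]
      have e6 : a • x + b • y - a • v = y := by
        calc a • x + b • y - a • v = (a + b) • y := by rw [hv, smul_sub, add_smul]; abel
          _ = y := by rw [hab, one_smul]
      simp only [e5, e6] at h6
      exact h6
    simp only [smul_eq_mul]
    have e7 : ‖a • x + b • y‖ ^ 2 = a * ‖x‖ ^ 2 + b * ‖y‖ ^ 2 - a * b * ‖x - y‖ ^ 2 := by
      rw [nsq, nsq, nsq, nsq]
      simp only [add_re, add_im, sub_re, sub_im, real_smul, mul_re, mul_im, ofReal_re,
        ofReal_im, zero_mul, sub_zero, add_zero]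
      have hb' : b = 1 - a := by linarith
      subst hb'
      ring
    have e8 : ∀ z : ℂ, ‖z‖ ^ 2 / 2 - G z + ‖z‖ ^ 2 / 2 = ‖z‖ ^ 2 - G z := fun z => by ring
    rw [e8, e8, e8, e7]
    linarith
  · have e : (fun z : ℂ => ‖z‖ ^ 2 / 2 - (‖z‖ ^ 2 / 2 - G z)) = G := by
      funext z
      ring
    unfold Dn
    rw [e]
    exact hG.1
  · intro z
    have h1 := hG.2 z
    rw [hhz] at h1
    linarith
  · intro g' hg' hfg z
    have h1 := hmax (fun z => ‖z‖ ^ 2 / 2 - g' z) ⟨hg', fun x => by
      rw [hhz]
      have := hfg x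
      linarith⟩ z
    change ‖z‖ ^ 2 / 2 - g' z ≤ G z at h1
    change ‖z‖ ^ 2 / 2 - G z ≤ g' z
    linarith
  · intro z a ε r hε hr hx
    change ‖z‖ ^ 2 / 2 - G z = f z
    by_contra hne
    have hlt : G z < h z := by
      refine lt_of_le_of_ne (hG.2 z) fun h1 => hne ?_
      rw [h1, hhz]
      ring
    have hGl : ∀ x, ‖x - z‖ < r → G z + dot (z - a) (x - z) + ε * ‖x - z‖ ^ 2 / 2 ≤ G x := by
      intro x h1
      have h2 : ‖x‖ ^ 2 / 2 - G x ≤ ‖z‖ ^ 2 / 2 - G z + dot a (x - z) +
        (1 - ε) * (‖x - z‖ ^ 2 / 2) := hx x h1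
      have e1 : ‖x‖ ^ 2 = ‖z‖ ^ 2 + 2 * dot z (x - z) + ‖x - z‖ ^ 2 := by
        rw [nsq, nsq, nsq, dot]
        simp only [sub_re, sub_im]
        ring
      have e2 : dot (z - a) (x - z) = dot z (x - z) - dot a (x - z) := by
        simp only [dot, sub_re, sub_im]
        ring
      rw [e1] at h2
      rw [e2]
      nlinarith
    obtain ⟨η, hη⟩ : ∃ η, η = (h z - G z) / 2 := ⟨_, rfl⟩
    have hη0 : 0 < η := by rw [hη]; linarith
    have hdc : Continuous fun x : ℂ => dot (z - a) (x - z) := by
      unfold dot
      fun_prop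
    have hA : Continuous fun x => h x - (G z + dot (z - a) (x - z)) :=
      hhc.sub (continuous_const.add hdc)
    have hd0 : dot (z - a) (z - z) = 0 := by
      simp [dot]
    have hAz : η < h z - (G z + dot (z - a) (z - z)) := by
      rw [hd0, hη]
      linarith
    obtain ⟨ρ', hρ', hρ⟩ := Metric.eventually_nhds_iff.1
      (hA.continuousAt.eventually (lt_mem_nhds hAz))
    obtain ⟨ρ, hρe⟩ : ∃ ρ, ρ = min ρ' r / 2 := ⟨_, rfl⟩
    have hρ0 : 0 < ρ := by
      rw [hρe]
      have := lt_min hρ' hr
      linarith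
    have hρr : ρ < r := by
      have := min_le_right ρ' r
      have := lt_min hρ' hr
      rw [hρe]
      linarith
    have hρρ : ρ < ρ' := by
      have := min_le_left ρ' r
      have := lt_min hρ' hr
      rw [hρe]
      linarith
    obtain ⟨δ, hδ⟩ : ∃ δ, δ = min η (ε * ρ ^ 2 / 2) := ⟨_, rfl⟩
    have hδ0 : 0 < δ := by
      rw [hδ]
      exact lt_min hη0 (by positivity)
    have hδη : δ ≤ η := by rw [hδ]; exact min_le_left _ _
    have hδρ : δ ≤ ε * ρ ^ 2 / 2 := by rw [hδ]; exact min_le_right _ _
    have hlin : ∀ (x y : ℂ) (s t : ℝ), s + t = 1 → dot (z - a) (s • x + t • y - z) =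
        s * dot (z - a) (x - z) + t * dot (z - a) (y - z) := by
      intro x y s t hst
      have ht' : t = 1 - s := by linarith
      subst ht'
      simp only [dot, add_re, add_im, sub_re, sub_im, real_smul, mul_re, mul_im, ofReal_re,
        ofReal_im, zero_mul, sub_zero, add_zero]
      ring
    have hk : (G ⊔ fun x => G z + dot (z - a) (x - z) + δ) ∈ minor h := by
      constructor
      · refine hG.1.sup ⟨convex_univ, ?_⟩
        intro x _ y _ s t hs ht hst
        simp only [smul_eq_mul]
        rw [hlin x y s t hst]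
        refine le_of_eq ?_
        have ht' : t = 1 - s := by linarith
        subst ht'
        ring
      · intro x
        rw [Pi.sup_apply]
        refine sup_le (hG.2 x) ?_
        rcases le_or_gt ‖x - z‖ ρ with h1 | h1
        · have h2 := hρ (y := x) (by rw [dist_eq_norm]; linarith)
          linarith
        · refine le_trans ?_ (hG.2 x)
          have hn0 : 0 < ‖x - z‖ := hρ0.trans h1
          obtain ⟨s, hs⟩ : ∃ s, s = ρ / ‖x - z‖ := ⟨_, rfl⟩
          have hs0 : 0 < s := by rw [hs]; positivity
          have hs1 : s ≤ 1 := by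
            rw [hs, div_le_one hn0]
            exact h1.le
          have hsn : s * ‖x - z‖ = ρ := by
            rw [hs]
            field_simp
          have e1 : (1 - s) • z + s • x - z = s • (x - z) := by
            rw [sub_smul, one_smul, smul_sub]
            abel
          have e2 : ‖(1 - s) • z + s • x - z‖ = ρ := by
            rw [e1, norm_smul, Real.norm_of_nonneg hs0.le, hsn]
          have h3 := hGl ((1 - s) • z + s • x) (by rw [e2]; exact hρr)
          rw [e2, hlin z x (1 - s) s (by ring), hd0] at h3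
          have h4 := hG.1.2 (mem_univ z) (mem_univ x) (by linarith : (0 : ℝ) ≤ 1 - s) hs0.le
            (by ring)
          simp only [smul_eq_mul] at h4
          have h5 : s * (G z + dot (z - a) (x - z)) + δ ≤ s * G x := by nlinarith
          have h6 : s * δ ≤ δ := by nlinarith
          have h7 : s * (G z + dot (z - a) (x - z) + δ) ≤ s * G x := by nlinarith
          exact le_of_mul_le_mul_left h7 hs0
    have h8 := hmax _ hk z
    rw [Pi.sup_apply, hd0] at h8
    have h9 := le_trans le_sup_right h8
    linarith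

end Pool.Agent.Helper27.BA
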