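import Pool.Agent.Helper28.BA.GoalsA
import Pool.Agent.Helper28.BA.GoalsB

/-!
# MP_f7b570_an, project BA, packet IBP (B14): the bilinear identity.
-/

open Complex MeasureTheory Set Filter Topology

namespace Pool.Agent.Helper27.BA

open Pool.Agent.Helper28.BA

theorem contDz {f : ℂ → ℂ} (hf : ContDiff ℝ 1 f) : Continuous (dz f) := by
  have h := hf.continuous_fderiv one_ne_zero
  unfold dz
  exact continuous_const.mul ((h.clm_apply continuous_const).sub
    (continuous_const.mul (h.clm_apply continuous_const)))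

theorem contDb {f : ℂ → ℂ} (hf : ContDiff ℝ 1 f) : Continuous (db f) := by
  have h := hf.continuous_fderiv one_ne_zero
  unfold db
  exact continuous_const.mul ((h.clm_apply continuous_const).add
    (continuous_const.mul (h.clm_apply continuous_const)))

theorem compDz {f : ℂ → ℂ} (hf : HasCompactSupport f) : HasCompactSupport (dz f) := by
  have h := hf.fderiv (𝕜 := ℝ)
  refine h.mono fun z hz => ?_
  rw [Function.mem_support] at hz ⊢
  intro h0
  exact hz (by simp [dz, h0])

theorem compDb {f : ℂ → ℂ} (hf : HasCompactSupport f) : HasCompactSupport (db f) := by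
  have h := hf.fderiv (𝕜 := ℝ)
  refine h.mono fun z hz => ?_
  rw [Function.mem_support] at hz ⊢
  intro h0
  exact hz (by simp [db, h0])

theorem fderiv_conj {g : ℂ → ℂ} {z : ℂ} (hg : DifferentiableAt ℝ g z) (v : ℂ) :
    fderiv ℝ (fun x => (starRingEnd ℂ) (g x)) z v = (starRingEnd ℂ) (fderiv ℝ g z v) := by
  have h : HasFDerivAt (fun x => (starRingEnd ℂ) (g x))
      ((Complex.conjCLE : ℂ →L[ℝ] ℂ).comp (fderiv ℝ g z)) z :=
    (Complex.conjCLE : ℂ →L[ℝ] ℂ).hasFDerivAt.comp z hg.hasFDerivAt
  rw [h.fderiv]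
  rfl

theorem dz_comb {f g : ℂ → ℂ} {z : ℂ} (hf : DifferentiableAt ℝ f z) (hg : DifferentiableAt ℝ g z)
    (c : ℂ) : dz (fun x => c * f x + (starRingEnd ℂ) (g x)) z =
      c * dz f z + (starRingEnd ℂ) (db g z) := by
  have hcg : DifferentiableAt ℝ (fun x => (starRingEnd ℂ) (g x)) z :=
    ((Complex.conjCLE : ℂ →L[ℝ] ℂ).differentiableAt.comp z hg)
  have hv : ∀ v, fderiv ℝ (fun x => c * f x + (starRingEnd ℂ) (g x)) z v =
      c * fderiv ℝ f z v + (starRingEnd ℂ) (fderiv ℝ g z v) := by
    intro v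
    rw [fderiv_fun_add (hf.const_mul c) hcg, fderiv_const_mul hf]
    rw [add_apply, fderiv_conj hg]
    rfl
  simp only [dz, db, hv, map_mul, map_add, Complex.conj_I, map_div₀, map_one, map_ofNat]
  ring

theorem db_comb {f g : ℂ → ℂ} {z : ℂ} (hf : DifferentiableAt ℝ f z) (hg : DifferentiableAt ℝ g z)
    (c : ℂ) : db (fun x => c * f x + (starRingEnd ℂ) (g x)) z =
      c * db f z + (starRingEnd ℂ) (dz g z) := by
  have hcg : DifferentiableAt ℝ (fun x => (starRingEnd ℂ) (g x)) z :=
    ((Complex.conjCLE : ℂ →L[ℝ] ℂ).differentiableAt.comp z hg)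
  have hv : ∀ v, fderiv ℝ (fun x => c * f x + (starRingEnd ℂ) (g x)) z v =
      c * fderiv ℝ f z v + (starRingEnd ℂ) (fderiv ℝ g z v) := by
    intro v
    rw [fderiv_fun_add (hf.const_mul c) hcg, fderiv_const_mul hf]
    rw [add_apply, fderiv_conj hg]
    rfl
  simp only [dz, db, hv, map_mul, map_sub, Complex.conj_I, map_div₀, map_one, map_ofNat]
  ring

theorem alg_id (a b x y c : ℂ) :
    ‖c * a + (starRingEnd ℂ) y‖ ^ 2 - ‖c * b + (starRingEnd ℂ) x‖ ^ 2 =
      ‖c‖ ^ 2 * (‖a‖ ^ 2 - ‖b‖ ^ 2) - (‖x‖ ^ 2 - ‖y‖ ^ 2) + 2 * (c * (a * y - b * x)).re := by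
  simp only [← Complex.normSq_eq_norm_sq, Complex.normSq_apply, Complex.add_re, Complex.add_im,
    Complex.mul_re, Complex.mul_im, Complex.conj_re, Complex.conj_im, Complex.sub_re,
    Complex.sub_im]
  ring

theorem re_int (h1 : S_DET) {f g : ℂ → ℂ} (hf : ContDiff ℝ 1 f) (cf : HasCompactSupport f)
    (hg : ContDiff ℝ 1 g) (cg : HasCompactSupport g) (c : ℂ) :
    ∫ z, (c * (dz f z * db g z - db f z * dz g z)).re = 0 := by
  have hdf : ∀ z, DifferentiableAt ℝ f z := fun z => hf.differentiable one_ne_zero z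
  have hdg : ∀ z, DifferentiableAt ℝ g z := fun z => hg.differentiable one_ne_zero z
  have hp : ContDiff ℝ 1 (fun x => c * f x + (starRingEnd ℂ) (g x)) :=
    (contDiff_const.mul hf).add ((Complex.conjCLE : ℂ →L[ℝ] ℂ).contDiff.comp hg)
  have cp : HasCompactSupport (fun x => c * f x + (starRingEnd ℂ) (g x)) := by
    refine HasCompactSupport.add ?_ ?_
    · exact cf.mono fun z hz => by
        rw [Function.mem_support] at hz ⊢
        intro h0
        exact hz (by simp [h0])
    · exact cg.mono fun z hz => by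
        rw [Function.mem_support] at hz ⊢
        intro h0
        exact hz (by simp [h0])
  have L : ∀ {q : ℂ → ℂ}, ContDiff ℝ 1 q → HasCompactSupport q → ∃ K, LipschitzWith K q :=
    fun hq cq => hq.lipschitzWith_of_hasCompactSupport cq one_ne_zero
  have Ip := h1 _ (L hp cp) cp
  have If := h1 _ (L hf cf) cf
  have Ig := h1 _ (L hg cg) cg
  have intN : ∀ {q : ℂ → ℂ}, ContDiff ℝ 1 q → HasCompactSupport q →
      Integrable (fun z => ‖dz q z‖ ^ 2 - ‖db q z‖ ^ 2) := by
    intro q hq cq
    refine Continuous.integrable_of_hasCompactSupport ?_ ?_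
    · exact ((contDz hq).norm.pow 2).sub ((contDb hq).norm.pow 2)
    · have h := cq.fderiv (𝕜 := ℝ)
      refine h.mono fun z hz => ?_
      rw [Function.mem_support] at hz ⊢
      intro h0
      exact hz (by simp [dz, db, h0])
  have intR : Integrable (fun z => (c * (dz f z * db g z - db f z * dz g z)).re) := by
    refine Continuous.integrable_of_hasCompactSupport ?_ ?_
    · exact Complex.continuous_re.comp (continuous_const.mul
        (((contDz hf).mul (contDb hg)).sub ((contDb hf).mul (contDz hg))))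
    · have h := cf.fderiv (𝕜 := ℝ)
      refine h.mono fun z hz => ?_
      rw [Function.mem_support] at hz ⊢
      intro h0
      exact hz (by simp [dz, db, h0])
  have e : (fun z => ‖dz (fun x => c * f x + (starRingEnd ℂ) (g x)) z‖ ^ 2 -
      ‖db (fun x => c * f x + (starRingEnd ℂ) (g x)) z‖ ^ 2) =
      fun z => ‖c‖ ^ 2 * (‖dz f z‖ ^ 2 - ‖db f z‖ ^ 2) - (‖dz g z‖ ^ 2 - ‖db g z‖ ^ 2) +
        2 * (c * (dz f z * db g z - db f z * dz g z)).re := by
    funext z
    rw [dz_comb (hdf z) (hdg z), db_comb (hdf z) (hdg z), alg_id]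
  have j1 : Integrable (fun z => ‖c‖ ^ 2 * (‖dz f z‖ ^ 2 - ‖db f z‖ ^ 2)) :=
    (intN hf cf).const_mul _
  have j2 : Integrable (fun z => ‖c‖ ^ 2 * (‖dz f z‖ ^ 2 - ‖db f z‖ ^ 2) -
      (‖dz g z‖ ^ 2 - ‖db g z‖ ^ 2)) := j1.sub (intN hg cg)
  have j3 : Integrable (fun z => 2 * (c * (dz f z * db g z - db f z * dz g z)).re) :=
    intR.const_mul 2
  rw [e, integral_add j2 j3, integral_sub j1 (intN hg cg), integral_const_mul, integral_const_mul,
    If, Ig] at Ip
  linarith

theorem IBP (h1 : S_DET) : S_IBP := by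
  intro f g hf cf hg cg
  have i1 : Integrable (fun z => dz f z * db g z) :=
    ((contDz hf).mul (contDb hg)).integrable_of_hasCompactSupport ((compDz cf).mul_right)
  have i2 : Integrable (fun z => db f z * dz g z) :=
    ((contDb hf).mul (contDz hg)).integrable_of_hasCompactSupport ((compDb cf).mul_right)
  have hR := re_int h1 hf cf hg cg 1
  have hI := re_int h1 hf cf hg cg (-I)
  have i3 : Integrable (fun z => dz f z * db g z - db f z * dz g z) := i1.sub i2
  have h0 : ∫ z, (dz f z * db g z - db f z * dz g z) = 0 := by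
    apply Complex.ext
    · rw [← reCLM_apply, ← ContinuousLinearMap.integral_comp_comm _ i3]
      simpa using hR
    · rw [← imCLM_apply, ← ContinuousLinearMap.integral_comp_comm _ i3]
      have e : (fun z => imCLM (dz f z * db g z - db f z * dz g z)) =
          fun z => (-I * (dz f z * db g z - db f z * dz g z)).re := by
        funext z
        simp
      rw [e, hI]
      simp
  rw [integral_sub i1 i2] at h0
  exact (sub_eq_zero.mp h0).symm

end Pool.Agent.Helper27.BA
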